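import Pool.Agent.J4H26.KP.Lm

set_option autoImplicit false

/-! # Project KP, (N3): the distribution functions of coalescing walks are Lipschitz in the start -/

namespace Pool.Agent.J4H19.KP

open Finset
open Pool.Agent.J4H26.KP
open Pool.Agent.J4H26.AF (Fb Fb_diff Fb_mem pm pm_nonneg pm_le Phi Rw coal_eq)
open Pool.Agent.J4H26.KT (cw ind cw_perm cw_ymin coal_cw ymin ymin_mono)

theorem prod_near {ι : Type} (s : Finset ι) (a b : ι → ℝ) (ha : ∀ i, |a i| ≤ 1) (hb : ∀ i, |b i| ≤ 1) :
    |∏ i ∈ s, a i - ∏ i ∈ s, b i| ≤ ∑ i ∈ s, |a i - b i| := by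
  classical
  have h1 : ∀ (c : ι → ℝ), (∀ i, |c i| ≤ 1) → ∀ s : Finset ι, |∏ i ∈ s, c i| ≤ 1 := by
    intro c hc s
    rw [abs_prod]
    exact prod_le_one (fun i _ => abs_nonneg _) (fun i _ => hc i)
  induction s using Finset.induction_on with
  | empty => simp
  | insert i s hi ih =>
    rw [prod_insert hi, prod_insert hi, sum_insert hi]
    have e : a i * ∏ j ∈ s, a j - b i * ∏ j ∈ s, b j
        = (a i - b i) * ∏ j ∈ s, a j + b i * (∏ j ∈ s, a j - ∏ j ∈ s, b j) := by ring
    rw [e]
    refine (abs_add_le _ _).trans (add_le_add ?_ ?_)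
    · rw [abs_mul]
      exact mul_le_of_le_one_right (abs_nonneg _) (h1 a ha s)
    · rw [abs_mul]
      exact (mul_le_of_le_one_left (abs_nonneg _) (hb i)).trans ih

theorem det_near {n : ℕ} (A B : Matrix (Fin n) (Fin n) ℝ) (c : ℝ) (hA : ∀ i j, |A i j| ≤ 1)
    (hB : ∀ i j, |B i j| ≤ 1) (h : ∀ i j, |A i j - B i j| ≤ c) :
    |A.det - B.det| ≤ (n.factorial : ℝ) * (n * c) := by
  rw [Matrix.det_apply', Matrix.det_apply', ← sum_sub_distrib]
  refine (abs_sum_le_sum_abs _ _).trans ?_
  have h1 : ∀ σ ∈ (univ : Finset (Equiv.Perm (Fin n))),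
      |(Equiv.Perm.sign σ : ℤ) * ∏ i, A (σ i) i - (Equiv.Perm.sign σ : ℤ) * ∏ i, B (σ i) i| ≤ n * c := by
    intro σ _
    rw [← mul_sub, abs_mul]
    have hs : |(((Equiv.Perm.sign σ : ℤˣ) : ℤ) : ℝ)| = 1 := by
      rcases Int.units_eq_one_or (Equiv.Perm.sign σ) with h | h <;> rw [h] <;> simp
    rw [hs, one_mul]
    refine (prod_near univ (fun i => A (σ i) i) (fun i => B (σ i) i) (fun i => hA _ _)
      (fun i => hB _ _)).trans ?_
    refine (sum_le_sum fun i _ => h (σ i) i).trans (le_of_eq ?_)
    rw [sum_const, card_univ, Fintype.card_fin, nsmul_eq_mul]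
  refine (sum_le_sum h1).trans (le_of_eq ?_)
  rw [sum_const, card_univ, Fintype.card_perm, Fintype.card_fin, nsmul_eq_mul]

theorem entry_abs {K : ℕ} (y : Fin K → ℤ) (i : Fin K) (t : ℕ) (z : ℤ) (j : Fin K) :
    |Rw y i t z j| ≤ 1 := by
  unfold Rw
  obtain ⟨h1, h2⟩ := Fb_mem t (y j - z)
  rw [abs_le]
  split_ifs <;> constructor <;> linarith

theorem entry_near {K : ℕ} (y : Fin K → ℤ) (i : Fin K) {t : ℕ} (ht : 1 ≤ t) (z : ℤ) (j : Fin K) :
    |Rw y i t (z + 1) j - Rw y i t z j| ≤ 1 / √(t : ℝ) := by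
  have e : Rw y i t (z + 1) j - Rw y i t z j = - pm t (y j - z) := by
    unfold Rw
    have h := Fb_diff t (y j - z)
    have e2 : y j - (z + 1) = y j - z - 1 := by ring
    rw [e2]
    linarith
  rw [e, abs_neg, abs_of_nonneg (pm_nonneg t _)]
  exact pm_le ht _

theorem cw_sort {K : ℕ} (y : Fin K → ℤ) (t : ℕ) (z : Fin K → ℤ) (σ : Equiv.Perm (Fin K))
    (hz : Monotone fun i => z (σ i)) :
    cw (ind y) t z = Phi (ymin fun i => y (σ i)) t (fun i => z (σ i)) := by
  rw [← coal_eq _ (ymin_mono _) t _ hz, coal_cw, ← cw_ymin _ t hz, cw_perm]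
  congr 1
  funext u
  unfold ind
  have : (∀ i, u (σ i) ≤ y (σ i)) ↔ ∀ i, u i ≤ y i :=
    ⟨fun h i => by simpa using h (σ.symm i), fun h i => h (σ i)⟩
  simp only [this]

theorem unit_step {K : ℕ} (y : Fin K → ℤ) {t : ℕ} (ht : 1 ≤ t) (z : Fin K → ℤ) (i : Fin K) :
    |cw (ind y) t (Function.update z i (z i + 1)) - cw (ind y) t z|
      ≤ (K.factorial : ℝ) * (K * (1 / √(t : ℝ))) := by
  classical
  set z' : Fin K → ℤ := Function.update z i (z i + 1) with hz'
  have hj : ∀ j, z' j = z j + if j = i then 1 else 0 := by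
    intro j
    by_cases h : j = i
    · rw [h, hz', Function.update_self, if_pos rfl]
    · rw [hz', Function.update_of_ne h, if_neg h, add_zero]
  set w : Fin K → ℤ := fun j => 2 * z j + if j = i then 1 else 0 with hw
  set σ := Tuple.sort w with hσ
  have hm : Monotone (w ∘ σ) := Tuple.monotone_sort w
  have hm1 : Monotone fun a => z (σ a) := by
    intro a b hab
    have h := hm hab
    simp only [hw, Function.comp_apply] at h
    simp only
    split_ifs at h <;> omega
  have hm2 : Monotone fun a => z' (σ a) := by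
    intro a b hab
    have h := hm hab
    simp only [hw, Function.comp_apply] at h
    simp only [hj]
    split_ifs at h ⊢ <;> omega
  rw [cw_sort y t z' σ hm2, cw_sort y t z σ hm1]
  unfold Phi
  refine det_near _ _ _ (fun a b => entry_abs _ _ _ _ _) (fun a b => entry_abs _ _ _ _ _)
    fun a b => ?_
  change |Rw (ymin fun i => y (σ i)) a t (z' (σ a)) b - Rw (ymin fun i => y (σ i)) a t (z (σ a)) b| ≤
    1 / √(t : ℝ)
  rw [hj]
  split_ifs with h
  · exact entry_near _ a ht (z (σ a)) b
  · rw [add_zero, sub_self, abs_zero]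
    positivity

/-- (N3) -/
theorem t_CLIP : S_CLIP := by
  intro K
  refine ⟨(K.factorial : ℝ) * K + 1, by positivity, fun t ht y => ?_⟩
  have hs : (0 : ℝ) < √(t : ℝ) := Real.sqrt_pos.2 (by exact_mod_cast ht)
  set c : ℝ := (K.factorial : ℝ) * (K * (1 / √(t : ℝ))) with hc
  have hc0 : 0 ≤ c := by positivity
  have key : ∀ n : ℕ, ∀ z z' : Fin K → ℤ, ∑ i, (z i - z' i).natAbs = n →
      |cw (ind y) t z - cw (ind y) t z'| ≤ n * c := by
    intro n
    induction n with
    | zero =>
      intro z z' h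
      have h1 : z = z' := by
        funext i
        have h2 := (sum_eq_zero_iff.1 h) i (mem_univ i)
        omega
      rw [h1, sub_self, abs_zero]
      simp
    | succ n ih =>
      intro z z' h
      obtain ⟨i, hi⟩ : ∃ i, z i ≠ z' i := by
        by_contra hno
        push Not at hno
        have : ∑ i, (z i - z' i).natAbs = 0 := sum_eq_zero fun i _ => by rw [hno i]; simp
        omega
      have hsplit : ∀ u : Fin K → ℤ, ∑ j, (u j - z' j).natAbs
          = (u i - z' i).natAbs + ∑ j ∈ univ.erase i, (u j - z' j).natAbs := fun u =>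
        (add_sum_erase univ _ (mem_univ i)).symm
      have hstep : ∀ e : ℤ, (z i + e - z' i).natAbs + 1 = (z i - z' i).natAbs →
          ∑ j, (Function.update z i (z i + e) j - z' j).natAbs = n := by
        intro e he
        have h1 := hsplit z
        have h2 := hsplit (Function.update z i (z i + e))
        have h3 : ∑ j ∈ univ.erase i, (Function.update z i (z i + e) j - z' j).natAbs
            = ∑ j ∈ univ.erase i, (z j - z' j).natAbs :=
          sum_congr rfl fun j hj => by rw [Function.update_of_ne (ne_of_mem_erase hj)]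
        rw [h3, Function.update_self] at h2
        omega
      rcases lt_or_gt_of_ne hi with hlt | hgt
      · have h1 := ih _ z' (hstep 1 (by omega))
        have h2 := unit_step y ht z i
        rw [← hc] at h2
        calc |cw (ind y) t z - cw (ind y) t z'|
            ≤ |cw (ind y) t z - cw (ind y) t (Function.update z i (z i + 1))|
              + |cw (ind y) t (Function.update z i (z i + 1)) - cw (ind y) t z'| :=
              abs_sub_le _ _ _
          _ ≤ c + n * c := add_le_add (by rw [abs_sub_comm]; exact h2) h1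
          _ = ((n + 1 : ℕ) : ℝ) * c := by push_cast; ring
      · have h1 := ih _ z' (hstep (-1) (by omega))
        have h2 := unit_step y ht (Function.update z i (z i + -1)) i
        rw [← hc, Function.update_self, Function.update_idem] at h2
        have e1 : Function.update z i (z i + -1 + 1) = z := by
          rw [neg_add_cancel_right, Function.update_eq_self]
        rw [e1] at h2
        calc |cw (ind y) t z - cw (ind y) t z'|
            ≤ |cw (ind y) t z - cw (ind y) t (Function.update z i (z i + -1))|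
              + |cw (ind y) t (Function.update z i (z i + -1)) - cw (ind y) t z'| :=
              abs_sub_le _ _ _
          _ ≤ c + n * c := add_le_add h2 h1
          _ = ((n + 1 : ℕ) : ℝ) * c := by push_cast; ring
  intro z z'
  have h := key _ z z' rfl
  refine h.trans ?_
  have e : ((∑ i, (z i - z' i).natAbs : ℕ) : ℝ) = ∑ i, |(z i : ℝ) - z' i| := by
    push_cast
    refine sum_congr rfl fun i _ => ?_
    rw [← Int.cast_natCast, Int.natCast_natAbs]
    push_cast
    rfl
  rw [e, hc]
  have hS : 0 ≤ ∑ i, |(z i : ℝ) - z' i| := sum_nonneg fun i _ => abs_nonneg _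
  have h5 : 0 ≤ (∑ i, |(z i : ℝ) - z' i|) / √(t : ℝ) := by positivity
  calc (∑ i, |(z i : ℝ) - z' i|) * ((K.factorial : ℝ) * (K * (1 / √(t : ℝ))))
      = (K.factorial : ℝ) * K * ((∑ i, |(z i : ℝ) - z' i|) / √(t : ℝ)) := by ring
    _ ≤ ((K.factorial : ℝ) * K + 1) * ((∑ i, |(z i : ℝ) - z' i|) / √(t : ℝ)) := by nlinarith
    _ = ((K.factorial : ℝ) * K + 1) * (∑ i, |(z i : ℝ) - z' i|) / √(t : ℝ) := by ring

end Pool.Agent.J4H19.KP
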