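import Pool.Agent.J4H26.KP.Lm

set_option autoImplicit false

/-! # Project KP, (N7): the central limit theorem for independent walks -/

namespace Pool.Agent.J4H19.KP

open Finset
open Pool.Agent.J4H26.KP
open Pool.Agent.J4H26.KT (iw sw sw_mono sw_add sw_nonneg iw_add iw_mono iw_const iw_cons)

theorem sw_const (c : ℝ) (s : ℕ) : ∀ d : ℤ, sw (fun _ => c) s d = c := by
  induction s with
  | zero => intro d; rfl
  | succ s ih =>
    intro d
    simp only [sw]
    rw [ih, ih]
    ring

theorem sw_near {f g : ℤ → ℝ} {c : ℝ} (h : ∀ x, |f x - g x| ≤ c) (s : ℕ) (d : ℤ) :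
    |sw f s d - sw g s d| ≤ c := by
  have h1 : sw f s d ≤ sw (fun x => g x + c) s d :=
    sw_mono (fun x => by have := abs_le.1 (h x); linarith) s d
  have h2 : sw g s d ≤ sw (fun x => f x + c) s d :=
    sw_mono (fun x => by have := abs_le.1 (h x); linarith) s d
  rw [sw_add g (fun _ => c), sw_const] at h1
  rw [sw_add f (fun _ => c), sw_const] at h2
  rw [abs_le]
  constructor <;> linarith

theorem iw_near {k : ℕ} {f g : (Fin k → ℤ) → ℝ} {c : ℝ} (h : ∀ x, |f x - g x| ≤ c) (s : ℕ)
    (z : Fin k → ℤ) : |iw f s z - iw g s z| ≤ c := by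
  have h1 : iw f s z ≤ iw (fun x => g x + c) s z :=
    iw_mono (fun x => by have := abs_le.1 (h x); linarith) s z
  have h2 : iw g s z ≤ iw (fun x => f x + c) s z :=
    iw_mono (fun x => by have := abs_le.1 (h x); linarith) s z
  rw [iw_add g (fun _ => c), iw_const] at h1
  rw [iw_add f (fun _ => c), iw_const] at h2
  rw [abs_le]
  constructor <;> linarith

theorem iw_abs {k : ℕ} {f : (Fin k → ℤ) → ℝ} {c : ℝ} (h : ∀ x, |f x| ≤ c) (s : ℕ)
    (z : Fin k → ℤ) : |iw f s z| ≤ c := by
  have h1 := iw_near (f := f) (g := fun _ => 0) (c := c) (fun x => by rw [sub_zero]; exact h x) s z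
  rwa [iw_const, sub_zero] at h1

/-- (N7) -/
theorem t_IWK : S_CLT1 → S_IWK := by
  intro hC K M ε hM hε
  obtain ⟨s₀, hs⟩ := hC M ε hM hε
  refine ⟨s₀, fun s s' h1 h2 => ?_⟩
  induction K with
  | zero =>
    intro g _ _
    have e1 : (fun z : Fin 0 → ℤ => g (fun i => (2 * (z i : ℝ) - s) / √s)) = fun _ => g 0 := by
      funext z
      congr 1
      exact Subsingleton.elim _ _
    have e2 : (fun z : Fin 0 → ℤ => g (fun i => (2 * (z i : ℝ) - s') / √s')) = fun _ => g 0 := by
      funext z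
      congr 1
      exact Subsingleton.elim _ _
    rw [e1, e2, iw_const, iw_const, sub_self, abs_zero]
    simp
  | succ K ih =>
    intro g hg hm
    have h0 : (fun _ => 0 : Fin (K + 1) → ℤ) = Fin.cons (0 : ℤ) (fun _ => 0 : Fin K → ℤ) := by
      funext i
      refine Fin.cases rfl (fun j => rfl) i
    have key : ∀ r : ℕ, (fun d' : ℤ => iw (fun v : Fin K → ℤ =>
        g (fun i => (2 * (((Fin.cons d' v : Fin (K + 1) → ℤ) i : ℤ) : ℝ) - r) / √r)) r (fun _ => 0))
        = fun d' : ℤ => iw (fun v : Fin K → ℤ =>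
          g (Fin.cons ((2 * (d' : ℝ) - r) / √r) (fun i => (2 * (v i : ℝ) - r) / √r))) r
            (fun _ => 0) := by
      intro r
      funext d'
      congr 1
      funext v
      congr 1
      funext i
      refine Fin.cases rfl (fun j => rfl) i
    rw [h0, iw_cons, iw_cons, key s, key s']
    set A : ℕ → ℝ → ℝ := fun r x => iw (fun v : Fin K → ℤ =>
      g (Fin.cons x (fun i => (2 * (v i : ℝ) - r) / √r))) r (fun _ => 0) with hA
    have hin : ∀ x : ℝ, |A s x - A s' x| ≤ 4 * K * ε := by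
      intro x
      refine ih (fun y => g (Fin.cons x y)) (fun y => hg _) fun y y' => ?_
      refine (hm _ _).trans (le_of_eq ?_)
      rw [Fin.sum_univ_succ]
      simp
    have hA1 : ∀ x, |A s' x| ≤ 1 := fun x => iw_abs (fun v => hg _) _ _
    have hA2 : ∀ x x', |A s' x - A s' x'| ≤ M * |x - x'| + ε := by
      intro x x'
      refine iw_near (fun v => ?_) _ _
      refine (hm _ _).trans (le_of_eq ?_)
      rw [Fin.sum_univ_succ]
      simp
    have h3 := hs s s' h1 h2 (A s') hA1 hA2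
    have h4 := sw_near (f := fun u : ℤ => A s ((2 * (u : ℝ) - s) / √s))
      (g := fun u : ℤ => A s' ((2 * (u : ℝ) - s) / √s)) (c := 4 * K * ε) (fun x => hin _) s 0
    have e3 : (4 : ℝ) * ((K + 1 : ℕ) : ℝ) * ε = 4 * K * ε + 4 * ε := by
      push_cast
      ring
    rw [e3]
    calc |sw (fun u : ℤ => A s ((2 * (u : ℝ) - s) / √s)) s 0
          - sw (fun u : ℤ => A s' ((2 * (u : ℝ) - s') / √s')) s' 0|
        ≤ |sw (fun u : ℤ => A s ((2 * (u : ℝ) - s) / √s)) s 0
            - sw (fun u : ℤ => A s' ((2 * (u : ℝ) - s) / √s)) s 0|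
          + |sw (fun u : ℤ => A s' ((2 * (u : ℝ) - s) / √s)) s 0
            - sw (fun u : ℤ => A s' ((2 * (u : ℝ) - s') / √s')) s' 0| := abs_sub_le _ _ _
      _ ≤ 4 * K * ε + 4 * ε := add_le_add h4 h3

end Pool.Agent.J4H19.KP
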